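import Pool.Agent.Y914.DX.Xpx
import Pool.Agent.Y914.CJ.Cex
import Pool.Agent.Y929.CJ.Small
import Pool.Agent.Y710.CG.S0P
import Pool.Agent.Y641.CG.Main
import Pool.Agent.Y899.DR.KFV
import Pool.Agent.Y833.CB.Mn1

/-!
# DX-XPXF: the expansion near `χ₀` with the functions of the children, final form
-/

set_option autoImplicit false

namespace Pool.Agent.Y914.DX

open Finset Filter Topology Metric
open Pool.Agent.W711.HT hiding XX
open Pool.Agent.Y472 Pool.Agent.Y481.DR Pool.Agent.Y481.DX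
open Pool.Agent.Y833.CB
open scoped Real

lemma MBV_diff (N : ℕ) (V : Vx) (i j : Fin N) : Differentiable ℂ fun χ => MBV N χ V i j := by
  unfold MBV
  split_ifs
  · refine Differentiable.mul ?_ (differentiable_const _)
    refine Differentiable.fun_finsetProd fun t _ => ?_
    unfold Ph
    exact (differentiable_const _).mul
      (((differentiable_const _).mul Complex.differentiable_cos).sub (differentiable_const _))
  · exact differentiable_const _

lemma mul_MBV_diff (N : ℕ) (M : Matrix (Fin N) (Fin N) ℂ) (V : Vx) (i j : Fin N) :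
    Differentiable ℂ fun χ => (M * MBV N χ V) i j := by
  have : (fun χ => (M * MBV N χ V) i j) = fun χ => ∑ k, M i k * MBV N χ V k j := by
    funext χ
    rw [Matrix.mul_apply]
  rw [this]
  exact Differentiable.fun_sum fun k _ => (differentiable_const _).mul (MBV_diff N V k j)

lemma TmV_diff (N : ℕ) (ls : List (Vx × Vx)) : Differentiable ℂ (TmV N ls) :=
  trace_diff ls (fun q χ =>
    Matrix.diagonal (fun i : Fin N => if N - 1 - (N - 1) / 2 ≤ (i : ℕ) then (1 : ℂ) else 0) *
    MAV N q.1 * Matrix.diagonal (fun i : Fin N => if (i : ℕ) ≤ (N - 1) / 2 then (1 : ℂ) else 0) *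
    MBV N χ q.2) fun q i j => mul_MBV_diff N _ _ i j

lemma XV_diff_of (hK : S_KFV) (ls : List (Vx × Vx)) (h0 : ls ≠ []) (h : SubL ls) (N : ℕ)
    (hN : 2 ≤ N) : Differentiable ℂ (XV ls N) := by
  have hA : AnL ls := fun p hp => ⟨(h p hp).1.an, (h p hp).2.an, (h p hp).1.ev, (h p hp).2.ev⟩
  have hN0 : ((N : ℂ) / (2 * π)) ^ (2 * ls.length) ≠ 0 := by
    apply pow_ne_zero
    apply div_ne_zero
    · exact_mod_cast (by omega : N ≠ 0)
    · exact mul_ne_zero two_ne_zero (by exact_mod_cast Real.pi_ne_zero)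
  have he : XV ls N = fun χ => (((N : ℂ) / (2 * π)) ^ (2 * ls.length))⁻¹ * TmV N ls χ := by
    funext χ
    rw [hK N ls χ hN h0 hA, ← mul_assoc, inv_mul_cancel₀ hN0, one_mul]
  rw [he]
  exact (differentiable_const _).mul (TmV_diff N ls)

theorem xpxf : S_XPXF :=
  xpxf_of Pool.Agent.Y914.CJ.cex Pool.Agent.Y929.CJ.ptz Pool.Agent.Y929.CJ.sze
    Pool.Agent.Y710.CG.s0p (Pool.Agent.Y641.CG.sdz Pool.Agent.Y710.CG.s0p)
    (XV_diff_of Pool.Agent.Y899.DR.t_KFV)

end Pool.Agent.Y914.DX
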