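import Pool.Agent.Y481.DX.Defs
import Pool.Agent.Y290.CJ.A

/-!
# DX-XPXF: the expansion near `χ₀` with the functions of the children, by continuation along a path
from `0` to `χ₀` (the decorated version of `Pool.Agent.Y290.CJ.XPX`)
-/

set_option autoImplicit false
set_option maxHeartbeats 1000000

namespace Pool.Agent.Y914.DX

open Finset Filter Topology Metric
open Pool.Agent.W711.HT hiding XX
open Pool.Agent.Y472
open Pool.Agent.Y481 (itI itN Sep cw)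
open Pool.Agent.Y481.DR Pool.Agent.Y481.DX
open Pool.Agent.W719.AX (UX EXY)
open Pool.Agent.Y482.Ph (GXc)
open Pool.Agent.Y290.CJ (rc_open rc_mono rc_norm rc_zero rz_open rz_self rz_mono rz_add rz_closure
  fin_lb fin_ub union_conn sz_an s3_an PD Gt Gt_eq Gt_diff mw_union mw_pow)
open scoped Real

/-! ### Critical configurations -/

/-- critical configurations -/
def CrF (σ : ℂ → ℂ → ℂ) (n : ℕ) (a : ℕ → ℤ) (F : ℕ → ℂ → ℂ) (z : ℕ → ℂ) (j : ℕ) : Prop :=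
  Complex.I * a ((j + 1) % n) * z ((j + 1) % n) / (2 * π) + Complex.I +
    deriv (F ((j + 1) % n)) (z ((j + 1) % n)) +
    deriv (fun w => σ (z j) w) (z ((j + 1) % n)) +
    deriv (fun w => σ w (z (((j + 1) % n + 1) % n))) (z ((j + 1) % n)) = 0

/-- critical values -/
noncomputable def VlF (σ : ℂ → ℂ → ℂ) (n : ℕ) (a : ℕ → ℤ) (F : ℕ → ℂ → ℂ) (z : ℕ → ℂ) : ℂ :=
  ∑ j ∈ range n, (Complex.I * a j * z j ^ 2 / (4 * π) +
            Complex.I * z j + F j (z j) + σ (z j) (z ((j + 1) % n)))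

lemma VlF_congr {σ σ' : ℂ → ℂ → ℂ} {n : ℕ} (hn : 0 < n) {a : ℕ → ℤ} {F : ℕ → ℂ → ℂ} {z z' : ℕ → ℂ}
    (hz : ∀ j < n, z j = z' j) (hσ : ∀ j < n, σ (z' j) (z' ((j + 1) % n)) =
      σ' (z' j) (z' ((j + 1) % n))) : VlF σ n a F z = VlF σ' n a F z' := by
  unfold VlF
  refine sum_congr rfl fun j hj => ?_
  rw [mem_range] at hj
  rw [hz j hj, hz _ (Nat.mod_lt _ hn), hσ j hj]

/-- two exponents which agree near a configuration -/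
lemma CrF_congr {σ σ' : ℂ → ℂ → ℂ} {n : ℕ} (hn : 0 < n) {a : ℕ → ℤ} {F : ℕ → ℂ → ℂ} {z : ℕ → ℂ}
    {V : Set ℂ} (hV : IsOpen V) (hz : ∀ j < n, z j ∈ V) (hσ : ∀ x ∈ V, ∀ y ∈ V, σ x y = σ' x y)
    {j : ℕ} (hj : j < n) (h : CrF σ n a F z j) : CrF σ' n a F z j := by
  have h1 := hz _ (Nat.mod_lt (j + 1) hn)
  have h2 := hz _ (Nat.mod_lt ((j + 1) % n + 1) hn)
  have e1 : deriv (fun w => σ (z j) w) (z ((j + 1) % n)) =
      deriv (fun w => σ' (z j) w) (z ((j + 1) % n)) := by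
    apply Filter.EventuallyEq.deriv_eq
    filter_upwards [hV.mem_nhds h1] with w hw
    exact hσ _ (hz j hj) _ hw
  have e2 : deriv (fun w => σ w (z (((j + 1) % n + 1) % n))) (z ((j + 1) % n)) =
      deriv (fun w => σ' w (z (((j + 1) % n + 1) % n))) (z ((j + 1) % n)) := by
    apply Filter.EventuallyEq.deriv_eq
    filter_upwards [hV.mem_nhds h1] with w hw
    exact hσ _ hw _ h2
  unfold CrF at h ⊢
  rw [← e1, ← e2]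
  exact h

/-- the conclusion of XLF -/
def ChF (S : ℂ → ℂ → ℂ → ℂ) (p : ℂ) (k : ℕ) (R c' B C' : ℝ) (ls : List (Vx × Vx))
    (F : ℕ → ℂ → ℂ) (G : ℂ → ℂ) (z : ℂ → ℕ → ℂ) : Prop :=
        DifferentiableOn ℂ G (Rc R R) ∧
        (∀ χ ∈ Rc R R, ‖G χ‖ ≤ B ∧ (deriv (deriv G) χ).re ≤ -c') ∧
        MW (fun N χ => XV ls N (χ + p)) G (Rc R R) ∧
        (∀ χ ∈ Rc R R, (∀ j < 2 * k, z χ j ∈ Rc (R / 2) (R / 2) ∧ 0 < (z χ j).im ∧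
            ‖z χ j‖ ≤ 1 / 10 ∧
          Complex.I * cw (wl ls) ((j + 1) % (2 * k)) * z χ ((j + 1) % (2 * k)) / (2 * π) +
            Complex.I + deriv (F ((j + 1) % (2 * k))) (z χ ((j + 1) % (2 * k))) +
            deriv (fun w => S (z χ j) w (χ + p)) (z χ ((j + 1) % (2 * k))) +
            deriv (fun w => S w (z χ (((j + 1) % (2 * k) + 1) % (2 * k))) (χ + p))
              (z χ ((j + 1) % (2 * k))) = 0) ∧
          deriv G χ = ∑ j ∈ range (2 * k),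
            deriv (fun w => S (z χ j) (z χ ((j + 1) % (2 * k))) w) (χ + p) ∧
          G χ = ∑ j ∈ range (2 * k), (Complex.I * cw (wl ls) j * z χ j ^ 2 / (4 * π) +
            Complex.I * z χ j + F j (z χ j) +
            S (z χ j) (z χ ((j + 1) % (2 * k))) (χ + p))) ∧
        ∀ m : ℝ, (∀ j < 2 * k, m ≤ |(cw (wl ls) j : ℝ)|) → 0 < m →
          (∀ χ ∈ Rc R R, ∀ j < 2 * k, ‖z χ j‖ ≤ C' / m) ∧
          ∀ χ ∈ Rc R R, ‖G χ - 2 * k * S 0 0 (χ + p)‖ ≤ C' / m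

/-- good data -/
structure GdF (S D : ℂ → ℂ → ℂ → ℂ) (R₀ B₀ : ℝ) (k : ℕ) (χ₀ : ℂ) (ρ₀ : ℝ) (p : ℂ) (d : PD) :
    Prop where
  hS : SDZ p d.ρ d.c d.C S D
  h0 : p = χ₀ → d.ρ = ρ₀
  hR : 0 < d.R
  hR1 : d.R ≤ 1
  hRρ : d.R ≤ d.ρ
  hRR : d.R ≤ R₀
  hc' : 0 < d.c'
  hB : 0 < d.B
  hC' : 0 < d.C'
  hM : 0 < d.M
  ch : ∀ (ls : List (Vx × Vx)) (F : ℕ → ℂ → ℂ), ls.length = k →
      (∀ j < 2 * k, DG R₀ B₀ (vy ls j) (F j)) →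
      (∀ j < 2 * k, d.M ≤ |(cw (wl ls) j : ℝ)|) → ∃ (G : ℂ → ℂ) (z : ℂ → ℕ → ℂ),
        ChF S p k d.R d.c' d.B d.C' ls F G z

lemma exists_gdF (hSDZ : ∀ χ₀ : ℂ, Zr χ₀ → ∃ ρ₀ c C : ℝ, SDZ χ₀ ρ₀ c C szz dzz) (hXLF : XLFc)
    {χ₀ : ℂ} {ρ₀ c C R₀ B₀ : ℝ} (hS : SDZ χ₀ ρ₀ c C szz dzz) (hR₀ : 0 < R₀) (hB₀ : 0 < B₀)
    {k : ℕ} (hk : 1 ≤ k) {p : ℂ}
    (hp : Zr p) (hb : bet ≤ (s0 p).re) : ∃ d : PD, GdF szz dzz R₀ B₀ k χ₀ ρ₀ p d := by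
  obtain ⟨ρ, c, C, hSp, h0⟩ : ∃ ρ c C : ℝ, SDZ p ρ c C szz dzz ∧ (p = χ₀ → ρ = ρ₀) := by
    by_cases h : p = χ₀
    · rw [h]
      exact ⟨ρ₀, c, C, hS, fun _ => rfl⟩
    · obtain ⟨ρ, c, C, h1⟩ := hSDZ p hp
      exact ⟨ρ, c, C, h1, fun h' => absurd h' h⟩
  obtain ⟨R, c', hR, hR1, hRρ, hRR, hc', B, C', M, hB, hC', hM, h⟩ :=
    hXLF p ρ c C hp hb hSp R₀ B₀ hR₀ hB₀ k hk
  refine ⟨⟨ρ, c, C, R, c', B, C', M⟩, hSp, h0, hR, hR1, hRρ, hRR, hc', hB, hC', hM, ?_⟩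
  intro ls F hls hF hlsM
  exact h ls F hls hF hlsM

/-! ### The functions `X` -/

/-- the normalised functions -/
noncomputable def XXV (ls : List (Vx × Vx)) (k : ℕ) (N : ℕ) (χ : ℂ) : ℂ :=
  if 2 ≤ N then (N : ℂ) ^ (2 * k) * XV ls N χ else 1

theorem xxv_eq {ls : List (Vx × Vx)} {k N : ℕ} (hN : 2 ≤ N) :
    XXV ls k N = fun χ => (N : ℂ) ^ (2 * k) * XV ls N χ := by
  funext χ
  simp only [XXV, if_pos hN]

theorem xxv_diff {ls : List (Vx × Vx)} (h : ∀ N, 2 ≤ N → Differentiable ℂ (XV ls N)) (k N : ℕ) :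
    Differentiable ℂ (XXV ls k N) := by
  by_cases hN : 2 ≤ N
  · rw [xxv_eq hN]
    exact (differentiable_const _).mul (h N hN)
  · have : XXV ls k N = fun _ => 1 := by
      funext χ
      simp only [XXV, if_neg hN]
    rw [this]
    exact differentiable_const _

/-- from the vertices of the ring to the list (as in `Pool.Agent.Y529.DR.subl_of`) -/
lemma subl_of {ls : List (Vx × Vx)} (h : ∀ j < 2 * ls.length, SubE (vy ls j)) : SubL ls := by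
  induction ls with
  | nil => intro p hp; simp at hp
  | cons q l ih =>
    intro p hp
    rw [List.mem_cons] at hp
    rcases hp with rfl | hp
    · have h0 := h 0 (by simp)
      have h1 := h 1 (by simp; omega)
      exact ⟨by simpa [vy] using h0, by simpa [vy] using h1⟩
    · refine ih (fun j hj => ?_) p hp
      have := h (j + 2) (by simp; omega)
      simpa [vy] using this

/-- the expansion near `0` -/
def XhF (s : ℂ → ℂ → ℂ → ℂ) (k : ℕ) (R : ℝ) (ls : List (Vx × Vx)) (F : ℕ → ℂ → ℂ) (G : ℂ → ℂ)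
    (z : ℂ → ℕ → ℂ) (A : ℕ → ℂ → ℂ) : Prop :=
  GXc R (fun N χ => (N : ℂ) ^ (2 * k) * XV ls N χ) G A ∧
  ∀ χ ∈ Rc R R, (∀ j < 2 * k, z χ j ∈ Rc (R / 2) (R / 2) ∧
    CrF (fun x y => s x y χ) (2 * k) (cw (wl ls)) F (z χ) j) ∧
    G χ = VlF (fun x y => s x y χ) (2 * k) (cw (wl ls)) F (z χ)

lemma ChF.cr {S : ℂ → ℂ → ℂ → ℂ} {p : ℂ} {k : ℕ} {R c' B C' : ℝ} {ls : List (Vx × Vx)}
    {F : ℕ → ℂ → ℂ} {G : ℂ → ℂ} {z : ℂ → ℕ → ℂ} (h : ChF S p k R c' B C' ls F G z) {χ : ℂ} (hχ : χ ∈ Rz p R) :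
    (∀ j < 2 * k, CrF (fun x y => S x y χ) (2 * k) (cw (wl ls)) F (z (χ - p)) j) ∧
      G (χ - p) = VlF (fun x y => S x y χ) (2 * k) (cw (wl ls)) F (z (χ - p)) := by
  obtain ⟨-, -, -, h4, -⟩ := h
  obtain ⟨h5, -, h6⟩ := h4 (χ - p) hχ
  rw [sub_add_cancel] at h5 h6
  exact ⟨fun j hj => (h5 j hj).2.2.2, h6⟩

theorem main (S D : ℂ → ℂ → ℂ → ℂ) (hCEX : S_CEX) (hUQZ : S_UQZF)
    {ρs cs Cs : ℝ} {s dl : ℂ → ℂ → ℂ → ℂ} (hs3 : SD3 ρs cs Cs s dl)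
    (hSZE : ∀ (p : ℂ) (ρ₁ c₁ C₁ : ℝ), SDZ p ρ₁ c₁ C₁ S D → ∀ ψ ψ' χ : ℂ, ψ ∈ Rc ρs ρs →
      ψ' ∈ Rc ρs ρs → χ ∈ Rc ρs ρs → ψ ∈ Rc ρ₁ ρ₁ → ψ' ∈ Rc ρ₁ ρ₁ → χ ∈ Rz p ρ₁ →
      s ψ ψ' χ = S ψ ψ' χ)
    {k : ℕ} (hk : 1 ≤ k) {R₀ B₀ : ℝ} {Rx Mx : ℝ} (hRx : 0 < Rx) (hRxρ : Rx ≤ ρs) (hRxR : Rx ≤ R₀)
    (hXd : ∀ (ls : List (Vx × Vx)), ls.length = k → (∀ j < 2 * k, SubE (vy ls j)) →
      ∀ N, 2 ≤ N → Differentiable ℂ (XV ls N))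
    (hX : ∀ (ls : List (Vx × Vx)) (F : ℕ → ℂ → ℂ) (An : ℕ → ℕ → ℂ → ℂ), ls.length = k →
      (∀ j < 2 * k, DGX R₀ B₀ (vy ls j) (F j) (An j)) →
      (∀ j < 2 * k, Mx ≤ |(cw (wl ls) j : ℝ)|) → ∃ (G : ℂ → ℂ) (z : ℂ → ℕ → ℂ)
        (A : ℕ → ℂ → ℂ), XhF s k Rx ls F G z A)
    {P : Set ℂ} (hPc : IsCompact P) (hPconn : IsConnected P) {χ₀ : ℂ} (hχP : χ₀ ∈ P) {η : ℝ}
    (hηP : (η * Complex.I : ℂ) ∈ P) (hη0 : 0 < η) (hηR : η < Rx)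
    {ρ₀ : ℝ} {d : ℂ → PD} (hd : ∀ p ∈ P, GdF S D R₀ B₀ k χ₀ ρ₀ p (d p)) :
    ∃ M : ℝ, 0 < M ∧ ∀ (ls : List (Vx × Vx)) (F : ℕ → ℂ → ℂ) (An : ℕ → ℕ → ℂ → ℂ), ls.length = k →
      (∀ j < 2 * k, DGX R₀ B₀ (vy ls j) (F j) (An j)) →
      (∀ j < 2 * k, M ≤ |(cw (wl ls) j : ℝ)|) → ∃ (G : ℂ → ℂ) (z : ℂ → ℕ → ℂ)
        (A : ℕ → ℂ → ℂ), ChF S χ₀ k ((d χ₀).R / 2) (d χ₀).c' (d χ₀).B (d χ₀).C' ls F G z ∧
        GXo (Rc ((d χ₀).R / 2) ((d χ₀).R / 2))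
          (fun N χ => (N : ℂ) ^ (2 * k) * XV ls N (χ + χ₀)) G A := by
  -- the finite set of charts
  obtain ⟨t, htP, htc⟩ := hPc.elim_nhds_subcover (fun p => Rz p (d p).R) fun p hp =>
    (rz_open p _).mem_nhds (rz_self (hd p hp).hR)
  obtain ⟨Tc, hF⟩ : ∃ Tc : Finset ℂ, Tc = insert χ₀ t := ⟨_, rfl⟩
  have hFP : ∀ p ∈ Tc, p ∈ P := by
    intro p hp
    rw [hF, mem_insert] at hp
    rcases hp with rfl | hp
    · exact hχP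
    · exact htP p hp
  have hχF : χ₀ ∈ Tc := by rw [hF]; exact mem_insert_self _ _
  have hPF : P ⊆ ⋃ p ∈ Tc, Rz p (d p).R := by
    intro y hy
    obtain ⟨p, hp, h⟩ := Set.mem_iUnion₂.1 (htc hy)
    exact Set.mem_iUnion₂.2 ⟨p, by rw [hF]; exact mem_insert_of_mem hp, h⟩
  have hFd : ∀ p ∈ Tc, GdF S D R₀ B₀ k χ₀ ρ₀ p (d p) := fun p hp => hd p (hFP p hp)
  -- the constants
  obtain ⟨r₁, hr1, hr1F⟩ := fin_lb Tc (fun p => (d p).R) fun p hp => (hFd p hp).hR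
  obtain ⟨r, hr, hrx, hr11⟩ : ∃ r : ℝ, 0 < r ∧ r ≤ Rx ∧ r ≤ r₁ :=
    ⟨min Rx r₁, lt_min hRx hr1, min_le_left _ _, min_le_right _ _⟩
  have hrF : ∀ p ∈ Tc, r ≤ (d p).R := fun p hp => hr11.trans (hr1F p hp)
  obtain ⟨Cm, hCm, hCmF⟩ := fin_ub Tc fun p => max (d p).C B₀
  obtain ⟨Mm, hMm, hMmF⟩ := fin_ub Tc fun p => (d p).M
  obtain ⟨C₂, hC2, hC2F⟩ := fin_ub Tc fun p => (d p).C'
  obtain ⟨M₁, hM1, hU1⟩ := hUQZ r Cm hr
  obtain ⟨M₂, hM2, hU2⟩ := hUQZ Rx (max Cs B₀) hRx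
  obtain ⟨M, hM, hMM1, hMM2, hMMm, hMMx, hMC⟩ : ∃ M : ℝ, 0 < M ∧ M₁ ≤ M ∧ M₂ ≤ M ∧ Mm ≤ M ∧
      Mx ≤ M ∧ C₂ / M < r / 4 := by
    refine ⟨M₁ + M₂ + Mm + |Mx| + 8 * C₂ / r, by positivity, ?_, ?_, ?_, ?_, ?_⟩
    · have : 0 ≤ |Mx| := abs_nonneg _
      have : 0 < 8 * C₂ / r := by positivity
      linarith
    · have : 0 ≤ |Mx| := abs_nonneg _
      have : 0 < 8 * C₂ / r := by positivity
      linarith
    · have : 0 ≤ |Mx| := abs_nonneg _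
      have : 0 < 8 * C₂ / r := by positivity
      linarith
    · have : Mx ≤ |Mx| := le_abs_self _
      have : 0 < 8 * C₂ / r := by positivity
      linarith
    · have h1 : 0 ≤ |Mx| := abs_nonneg _
      have h2 : 0 < 8 * C₂ / r := by positivity
      rw [div_lt_iff₀ (by positivity)]
      have h3 : r / 4 * (8 * C₂ / r) = 2 * C₂ := by
        field_simp
        ring
      have h4 : 0 ≤ r / 4 * (M₁ + M₂ + Mm + |Mx|) := by positivity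
      have h5 : r / 4 * (M₁ + M₂ + Mm + |Mx| + 8 * C₂ / r) =
          r / 4 * (M₁ + M₂ + Mm + |Mx|) + r / 4 * (8 * C₂ / r) := by ring
      rw [h5, h3]
      linarith
  refine ⟨M, hM, ?_⟩
  intro ls F An hls hFX hcw
  have hFG : ∀ j < 2 * k, DG R₀ B₀ (vy ls j) (F j) := fun j hj => (hFX j hj).dg
  have hn0 : 0 < 2 * k := by omega
  have hn2 : 2 ≤ 2 * k := by omega
  -- the charts
  have hch : ∀ p ∈ Tc, ∃ (G : ℂ → ℂ) (z : ℂ → ℕ → ℂ),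
      ChF S p k (d p).R (d p).c' (d p).B (d p).C' ls F G z := fun p hp =>
    (hFd p hp).ch ls F hls hFG fun j hj => ((hMmF p hp).trans hMMm).trans (hcw j hj)
  choose! G z hGz using hch
  have hsm : ∀ p ∈ Tc, ∀ χ ∈ Rz p (d p).R, ∀ j < 2 * k, z p (χ - p) j ∈ Rc (r / 4) (r / 4) := by
    intro p hp χ hχ j hj
    obtain ⟨-, -, -, -, h5⟩ := hGz p hp
    refine rc_norm (((h5 M hcw hM).1 (χ - p) hχ j hj).trans_lt ?_)
    refine lt_of_le_of_lt ?_ hMC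
    exact div_le_div_of_nonneg_right (hC2F p hp) hM.le
  have hr42 : Rc (r / 4) (r / 4) ⊆ Rc (r / 2) (r / 2) := rc_mono (by linarith)
  have hr4 : Rc (r / 4) (r / 4) ⊆ Rc r r := rc_mono (by linarith)
  have hbox : ∀ p ∈ Tc, Rz p (d p).R ⊆ Rz p (d p).ρ := fun p hp => rz_mono (hFd p hp).hRρ
  -- the values agree
  have hG : ∀ p ∈ Tc, ∀ q ∈ Tc, ∀ χ, χ ∈ Rz p (d p).R → χ ∈ Rz q (d q).R →
      G p (χ - p) = G q (χ - q) := by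
    intro p hp q hq χ hχp hχq
    obtain ⟨c1, v1⟩ := (hGz p hp).cr hχp
    obtain ⟨c2, v2⟩ := (hGz q hq).cr hχq
    have hSp := (hFd p hp).hS
    have hrρ : r ≤ (d p).ρ := (hrF p hp).trans (hFd p hp).hRρ
    have huq := hU1 (2 * k) (fun x y => S x y χ) F (cw (wl ls)) (z p (χ - p)) (z q (χ - q)) hn2
      (sz_an hSp (hbox p hp hχp) hrρ)
      (fun ψ hψ ψ' hψ' => (hSp.sbd ψ (rc_mono hrρ hψ) ψ' (rc_mono hrρ hψ') χ
        (hbox p hp hχp)).trans ((le_max_left _ _).trans (hCmF p hp)))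
      (fun j hj => ⟨(hFG j hj).Fan.mono (rc_mono (hrx.trans hRxR)), fun ψ hψ =>
        ((hFG j hj).Fbd ψ (rc_mono (hrx.trans hRxR) hψ)).trans
          ((le_max_right _ _).trans (hCmF p hp))⟩)
      (fun j hj => hMM1.trans (hcw j hj))
      (fun j hj => ⟨hr42 (hsm p hp χ hχp j hj), hr42 (hsm q hq χ hχq j hj), c1 j hj, c2 j hj⟩)
    rw [v1, v2]
    exact VlF_congr hn0 huq fun _ _ => rfl
  -- the domain
  obtain ⟨U, hU⟩ : ∃ U : Set ℂ, U = ⋃ p ∈ Tc, Rz p (d p).R := ⟨_, rfl⟩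
  have hUo : IsOpen U := by
    rw [hU]
    exact isOpen_biUnion fun p _ => rz_open _ _
  have hUc : IsConnected U := by
    rw [hU]
    exact union_conn hPconn Tc (fun p => (d p).R) hFP (fun p hp => (hFd p hp).hR) hPF
  obtain ⟨Gg, hGg⟩ : ∃ Gg : ℂ → ℂ, Gg = Gt Tc (fun p => (d p).R) G := ⟨_, rfl⟩
  have hGgp : ∀ p ∈ Tc, ∀ χ ∈ Rz p (d p).R, Gg χ = G p (χ - p) := by
    intro p hp χ hχ
    rw [hGg]
    exact Gt_eq (R := fun p => (d p).R) hG hp hχ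
  have hGd : DifferentiableOn ℂ Gg U := by
    rw [hGg, hU]
    exact Gt_diff (R := fun p => (d p).R) hG fun p hp => (hGz p hp).1
  have hmw1 : MW (fun N χ => XV ls N χ) Gg U := by
    rw [hGg, hU]
    exact mw_union (X := fun N χ => XV ls N χ) (R := fun p => (d p).R) hG
      fun p hp => (hGz p hp).2.2.1
  have hmw2 := mw_pow k hmw1
  have hmw : MW (XXV ls k) Gg U := by
    intro ε hε
    filter_upwards [hmw2 ε hε, eventually_ge_atTop 2] with N hN hN2 χ hχ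
    rw [xxv_eq hN2]
    exact hN χ hχ
  -- the expansion near `0`
  obtain ⟨Gx, zx, Ax, hGx, hzx⟩ := hX ls F An hls hFX fun j hj => hMMx.trans (hcw j hj)
  obtain ⟨W, hW⟩ : ∃ W : Set ℂ, W = U ∩ Rc Rx Rx := ⟨_, rfl⟩
  have hWo : IsOpen W := by
    rw [hW]
    exact hUo.inter (rc_open _ _)
  have hWn : W.Nonempty := by
    refine ⟨η * Complex.I, ?_⟩
    rw [hW]
    refine ⟨hU ▸ hPF hηP, ?_, ?_⟩
    · simpa using hRx
    · have : (η * Complex.I : ℂ).im = η := by simp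
      rw [this, abs_of_pos hη0]
      exact hηR
  have hWU : W ⊆ U := by
    rw [hW]
    exact Set.inter_subset_left
  have hWx : W ⊆ Rc Rx Rx := by
    rw [hW]
    exact Set.inter_subset_right
  have hGW : ∀ χ ∈ W, Gg χ = Gx χ := by
    intro χ hχ
    have hχU := hWU hχ
    rw [hU] at hχU
    obtain ⟨p, hp, hχp⟩ := Set.mem_iUnion₂.1 hχU
    rw [hGgp p hp χ hχp]
    obtain ⟨c1, v1⟩ := (hGz p hp).cr hχp
    obtain ⟨c2, v2⟩ := hzx χ (hWx hχ)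
    have hSp := (hFd p hp).hS
    have hrρ : r ≤ (d p).ρ := (hrF p hp).trans (hFd p hp).hRρ
    have hrs : r ≤ ρs := hrx.trans hRxρ
    have hχs : χ ∈ Rc ρs ρs := rc_mono hRxρ (hWx hχ)
    have heq : ∀ x ∈ Rc r r, ∀ y ∈ Rc r r, S x y χ = s x y χ := fun x hx y hy =>
      (hSZE p _ _ _ hSp x y χ (rc_mono hrs hx) (rc_mono hrs hy) hχs (rc_mono hrρ hx)
        (rc_mono hrρ hy) (hbox p hp hχp)).symm
    have c3 : ∀ j < 2 * k, CrF (fun x y => s x y χ) (2 * k) (cw (wl ls)) F (z p (χ - p)) j :=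
      fun j hj => CrF_congr hn0 (rc_open r r) (fun i hi => hr4 (hsm p hp χ hχp i hi)) heq hj (c1 j hj)
    have huq := hU2 (2 * k) (fun x y => s x y χ) F (cw (wl ls)) (z p (χ - p)) (zx χ) hn2
      (s3_an hs3 hχs hRxρ)
      (fun ψ hψ ψ' hψ' => (hs3.sbd ψ (rc_mono hRxρ hψ) ψ' (rc_mono hRxρ hψ') χ hχs).trans
        (le_max_left _ _))
      (fun j hj => ⟨(hFG j hj).Fan.mono (rc_mono hRxR), fun ψ hψ =>
        ((hFG j hj).Fbd ψ (rc_mono hRxR hψ)).trans (le_max_right _ _)⟩)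
      (fun j hj => hMM2.trans (hcw j hj))
      (fun j hj => ⟨rc_mono (by linarith) (hsm p hp χ hχp j hj), (c2 j hj).1, c3 j hj,
        (c2 j hj).2⟩)
    rw [v1, v2]
    refine (VlF_congr hn0 (fun j hj => (huq j hj).symm) fun j hj => ?_).symm
    exact (heq _ (hr4 (hsm p hp χ hχp j hj)) _
      (hr4 (hsm p hp χ hχp _ (Nat.mod_lt _ hn0)))).symm
  have hgxo : GXo W (XXV ls k) Gg Ax := by
    refine ⟨fun K => ?_, fun n => (hGx.an n).mono hWx, fun χ hχ => hGx.nz χ (hWx hχ)⟩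
    obtain ⟨C, hC⟩ := hGx.ux K
    refine ⟨C, ?_⟩
    filter_upwards [hC, eventually_ge_atTop 2] with N h1 h2 χ hχ
    rw [xxv_eq h2]
    show ‖Complex.exp (-(N * Gg χ)) * ((N : ℂ) ^ (2 * k) * XV ls N χ) - _‖ ≤ _
    rw [hGW χ hχ]
    exact h1 χ (hWx hχ)
  -- continuation
  have hR0 := (hFd χ₀ hχF).hR
  obtain ⟨hVU, hVc⟩ := rz_closure (p := χ₀) hR0
  have hRU : Rz χ₀ (d χ₀).R ⊆ U := by
    rw [hU]
    exact fun y hy => Set.mem_iUnion₂.2 ⟨χ₀, hχF, hy⟩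
  obtain ⟨A', hA'⟩ := hCEX U W (XXV ls k) Gg Ax hUo hUc hWo hWn hWU
    (fun N => (xxv_diff (hXd ls hls fun j hj => (hFG j hj).sub) k N).differentiableOn) hGd hmw
    hgxo (Rz χ₀ ((d χ₀).R / 2))
    (rz_open _ _) hVc (hVU.trans hRU)
  -- the conclusion
  have hsub : Rc ((d χ₀).R / 2) ((d χ₀).R / 2) ⊆ Rc (d χ₀).R (d χ₀).R := rc_mono (by linarith)
  obtain ⟨g1, g2, g3, g4, g5⟩ := hGz χ₀ hχF
  refine ⟨G χ₀, z χ₀, fun n χ => A' n (χ + χ₀), ⟨g1.mono hsub, fun χ hχ => g2 χ (hsub hχ), ?_, ?_,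
    ?_⟩, ?_⟩
  · intro ε hε
    filter_upwards [g3 ε hε] with N hN χ hχ
    exact hN χ (hsub hχ)
  · intro χ hχ
    obtain ⟨a1, a2⟩ := g4 χ (hsub hχ)
    refine ⟨fun j hj => ⟨?_, (a1 j hj).2⟩, a2⟩
    have h1 := hsm χ₀ hχF (χ + χ₀) (rz_add (hsub hχ)) j hj
    rw [add_sub_cancel_right] at h1
    exact rc_mono (by have := hrF χ₀ hχF; linarith) h1
  · intro m hm hm0
    obtain ⟨a1, a2⟩ := g5 m hm hm0
    exact ⟨fun χ hχ => a1 χ (hsub hχ), fun χ hχ => a2 χ (hsub hχ)⟩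
  · refine ⟨fun K => ?_, fun n => ?_, fun χ hχ => hA'.nz _ (rz_add hχ)⟩
    · obtain ⟨C, hC⟩ := hA'.ux K
      refine ⟨C, ?_⟩
      filter_upwards [hC, eventually_ge_atTop 2] with N h1 h2 χ hχ
      have h3 := h1 (χ + χ₀) (rz_add hχ)
      rw [xxv_eq h2] at h3
      have h4 := hGgp χ₀ hχF (χ + χ₀) (rz_add (hsub hχ))
      rw [add_sub_cancel_right] at h4
      simp only at h3 ⊢
      rw [h4] at h3
      exact h3
    · have h1 : DifferentiableOn ℂ (fun χ : ℂ => χ + χ₀) (Rc ((d χ₀).R / 2) ((d χ₀).R / 2)) := by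
        fun_prop
      exact (hA'.an n).comp h1 fun χ hχ => rz_add hχ

/-- XPXF: the expansion near `χ₀`, from the parts -/
theorem xpxf_of (hCEX : S_CEX) (hPTZ : S_PTZ) (hSZE : S_SZE) (hS0P : S_S0P)
    (hSDZ : ∀ χ₀ : ℂ, Zr χ₀ → ∃ ρ₀ c C : ℝ, SDZ χ₀ ρ₀ c C szz dzz)
    (hXd : ∀ (ls : List (Vx × Vx)), ls ≠ [] → SubL ls → ∀ N, 2 ≤ N → Differentiable ℂ (XV ls N)) :
    S_XPXF := by
  intro hUQZ hXLF hXLX χ₀ ρ₀ c C hZ hbe hS R₀ B₀ hR₀ hB₀ k hk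
  obtain ⟨ρs, cs, Cs, s, dl, hs3, hX⟩ := hXLX
  obtain ⟨Rx, cx, hRx, hRx1, hRxρ, hRxR, hcx, Bx, Cx, Mx, hBx, hCx, hMx, hXls⟩ :=
    hX R₀ B₀ hR₀ hB₀ k hk
  obtain ⟨η, hη0, hη1, hη2⟩ : ∃ η : ℝ, 0 < η ∧ η ≤ χ₀.im ∧ η < Rx :=
    ⟨min χ₀.im (Rx / 2), lt_min hZ.2.2.1 (by positivity), min_le_left _ _,
      (min_le_right _ _).trans_lt (by linarith)⟩
  obtain ⟨P, hPc, hPconn, hχP, hηP, hPZ⟩ := hPTZ hS0P χ₀ hZ hbe η hη0 hη1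
  have hch : ∀ p ∈ P, ∃ d : PD, GdF szz dzz R₀ B₀ k χ₀ ρ₀ p d := fun p hp =>
    exists_gdF hSDZ hXLF hS hR₀ hB₀ hk (hPZ p hp).1 (hPZ p hp).2
  choose! d hd using hch
  have hX' : ∀ (ls : List (Vx × Vx)) (F : ℕ → ℂ → ℂ) (An : ℕ → ℕ → ℂ → ℂ), ls.length = k →
      (∀ j < 2 * k, DGX R₀ B₀ (vy ls j) (F j) (An j)) →
      (∀ j < 2 * k, Mx ≤ |(cw (wl ls) j : ℝ)|) → ∃ (G : ℂ → ℂ) (z : ℂ → ℕ → ℂ)
        (A : ℕ → ℂ → ℂ), XhF s k Rx ls F G z A := by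
    intro ls F An hls hFX hlsM
    obtain ⟨G, z, A, -, -, -, h4, h5, -⟩ := hXls ls F An hls hFX hlsM
    refine ⟨G, z, A, h4, fun χ hχ => ?_⟩
    obtain ⟨a1, -, a3⟩ := h5 χ hχ
    exact ⟨fun j hj => ⟨(a1 j hj).1, (a1 j hj).2.2.2⟩, a3⟩
  obtain ⟨M, hM, hfin⟩ := main szz dzz hCEX hUQZ hs3
    (fun p ρ₁ c₁ C₁ h => hSZE ρs cs Cs s dl hs3 p ρ₁ c₁ C₁ h) hk hRx hRxρ hRxR
    (fun ls hls hsub => hXd ls (by
      intro h
      rw [h, List.length_nil] at hls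
      omega) (subl_of (by rw [hls]; exact hsub))) hX' hPc hPconn hχP hηP hη0 hη2 hd
  have hd0 := hd χ₀ hχP
  refine ⟨(d χ₀).R / 2, (d χ₀).c', by have := hd0.hR; positivity, ?_, ?_, ?_, hd0.hc', (d χ₀).B,
    (d χ₀).C', M, hd0.hB, hd0.hC', hM, ?_⟩
  · have := hd0.hR
    have := hd0.hR1
    linarith
  · have h1 := hd0.hR
    have h2 := hd0.hRρ
    have h3 := hd0.h0 rfl
    linarith
  · have h1 := hd0.hR
    have h2 := hd0.hRR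
    linarith
  · intro ls F An hls hFX hlsM
    obtain ⟨G, z, A, ⟨g1, g2, g3, g4, g5⟩, g6⟩ := hfin ls F An hls hFX hlsM
    exact ⟨G, z, A, g1, g2, g3, g6, g4, g5⟩

end Pool.Agent.Y914.DX
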